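import Pool.Agent.Lib.MP_3f4edd_co.Main

namespace Pool.Agent.Lib.MP_3f4edd_co

theorem exists_perm_ofFn {r : ℕ} (L : List (Fin r)) (hL : L.Perm (List.finRange r)) :
    ∃ s : Equiv.Perm (Fin r), List.ofFn s = L := by
  have hlen : L.length = r := by simpa using hL.length_eq
  have hnd : L.Nodup := hL.nodup_iff.2 (List.nodup_finRange r)
  have hinj : Function.Injective fun i : Fin r => L.get (Fin.cast hlen.symm i) :=
    (List.nodup_iff_injective_get.1 hnd).comp (Fin.cast_injective _)
  refine ⟨Equiv.ofBijective _ (Finite.injective_iff_bijective.1 hinj), ?_⟩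
  apply List.ext_get (by simp [hlen])
  intro i h1 h2
  simp

theorem general (r : ℕ) (hr : 5 ≤ r) (n : ℕ) (x : Fin r → List (Fin n)) (hx : ∀ i, x i ≠ [])
    (w : Equiv.Perm (Fin r) → Equiv.Perm (Fin n))
    (hw : ∀ σ, List.ofFn (w σ) = (List.ofFn fun i => x (σ i)).flatten) :
    ∃ σ τ, col (List.ofFn (w σ)) ≠ col (List.ofFn (w τ)) := by
  by_contra hcon
  push Not at hcon
  obtain ⟨m, rfl⟩ : ∃ m, r = m + 5 := ⟨r - 5, by omega⟩
  let B : Fin 5 → List (Fin (m + 5)) :=
    ![[0], [Fin.succ 0], [Fin.succ (Fin.succ 0)], [Fin.succ (Fin.succ (Fin.succ 0))],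
      (List.finRange (m + 1)).map fun i => i.succ.succ.succ.succ]
  have hB : (List.ofFn B).flatten = List.finRange (m + 5) := by
    simp [B, List.ofFn_succ, List.finRange_succ, List.map_map, Function.comp_def]
  have hs : ∀ σ : Equiv.Perm (Fin 5), ∃ s : Equiv.Perm (Fin (m + 5)),
      List.ofFn (w s) = (List.ofFn fun i => ((B (σ i)).map x).flatten).flatten := by
    intro σ
    obtain ⟨s, hs⟩ := exists_perm_ofFn (List.ofFn fun i => B (σ i)).flatten
      (hB ▸ List.Perm.flatten (σ.ofFn_comp_perm B))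
    refine ⟨s, ?_⟩
    rw [hw]
    have : (List.ofFn fun i => x (s i)) = (List.ofFn s).map x := by
      rw [List.map_ofFn]; rfl
    rw [this, hs, List.map_flatten, List.flatten_flatten, List.map_map, List.map_ofFn]
    rfl
  refine no_copy (fun i => ((B i).map x).flatten) ?_ ?_ ?_
  · intro i h
    rw [List.flatten_eq_nil_iff] at h
    have hne : B i ≠ [] := by
      fin_cases i <;> simp [B, List.finRange_succ]
    obtain ⟨j, hj⟩ := List.exists_mem_of_ne_nil _ hne
    exact hx j (h _ (List.mem_map_of_mem hj))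
  · obtain ⟨s, hs⟩ := hs 1
    have := List.nodup_ofFn.2 (w s).injective
    rw [hs] at this
    exact this
  · intro σ τ
    obtain ⟨s, hs'⟩ := hs σ
    obtain ⟨t, ht⟩ := hs τ
    rw [← hs', ← ht]
    exact hcon s t

end Pool.Agent.Lib.MP_3f4edd_co
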