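import Mathlib

namespace Pool.Agent.Lib.MP_3f4edd_co

variable {α : Type*} [LinearOrder α]

/-- number of adjacent pairs `(a, b)` with `L < a` and `b < F` -/
def cnt (F L : α) : List α → ℕ
  | a :: b :: t => (if L < a ∧ b < F then 1 else 0) + cnt F L (b :: t)
  | _ => 0

theorem cnt_append (F L : α) (u v : List α) (hu : u ≠ []) (hv : v ≠ []) :
    cnt F L (u ++ v) = cnt F L u + cnt F L v +
      (if L < u.getLast hu ∧ v.head hv < F then 1 else 0) := by
  induction u with
  | nil => exact absurd rfl hu
  | cons a u ih =>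
    cases u with
    | nil =>
      cases v with
      | nil => exact absurd rfl hv
      | cons b v => simp [cnt, add_comm]
    | cons b u =>
      have := ih (by simp)
      simp only [List.cons_append, cnt, List.getLast_cons_cons] at this ⊢
      rw [this]
      simp only [add_assoc]
      congr

/-- the colouring -/
def col (w : List α) : Fin 2 :=
  if h : w = [] then 0 else ⟨cnt (w.head h) (w.getLast h) w % 2, Nat.mod_lt _ (by norm_num)⟩

theorem col_five (s a m b l : List α) (hs : s ≠ []) (ha : a ≠ []) (hm : m ≠ []) (hb : b ≠ [])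
    (hl : l ≠ []) (h1 : m.head hm < s.head hs) (h2 : s.head hs < a.head ha)
    (h3 : s.head hs < b.head hb) (h4 : s.head hs < l.head hl) :
    (col (s ++ (a ++ (m ++ (b ++ l)))) : ℕ) =
      (cnt (s.head hs) (l.getLast hl) s + cnt (s.head hs) (l.getLast hl) a +
        cnt (s.head hs) (l.getLast hl) m + cnt (s.head hs) (l.getLast hl) b +
        cnt (s.head hs) (l.getLast hl) l + (if l.getLast hl < a.getLast ha then 1 else 0)) % 2 := by
  have hw : s ++ (a ++ (m ++ (b ++ l))) ≠ [] := by simp [hs]
  have e1 : (s ++ (a ++ (m ++ (b ++ l)))).head hw = s.head hs := List.head_append_of_ne_nil hs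
  have e2 : (s ++ (a ++ (m ++ (b ++ l)))).getLast hw = l.getLast hl := by
    simp [List.getLast_append_of_ne_nil, hl]
  simp only [col, dif_neg hw, e1, e2]
  rw [cnt_append _ _ s _ hs (by simp [ha]), cnt_append _ _ a _ ha (by simp [hm]),
    cnt_append _ _ m _ hm (by simp [hb]), cnt_append _ _ b _ hb hl]
  simp only [List.head_append_of_ne_nil ha, List.head_append_of_ne_nil hm,
    List.head_append_of_ne_nil hb, h1, h2.not_gt, h3.not_gt, h4.not_gt, and_false, and_true,
    if_false]
  congr 1
  omega

theorem col_ne (s a m b l : List α) (hs : s ≠ []) (ha : a ≠ []) (hm : m ≠ []) (hb : b ≠ [])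
    (hl : l ≠ []) (h1 : m.head hm < s.head hs) (h2 : s.head hs < a.head ha)
    (h3 : s.head hs < b.head hb) (h4 : s.head hs < l.head hl)
    (h5 : a.getLast ha < l.getLast hl) (h6 : l.getLast hl < b.getLast hb) :
    col (s ++ (a ++ (m ++ (b ++ l)))) ≠ col (s ++ (b ++ (m ++ (a ++ l)))) := by
  intro h
  have h' := congrArg Fin.val h
  rw [col_five s a m b l hs ha hm hb hl h1 h2 h3 h4,
    col_five s b m a l hs hb hm ha hl h1 h3 h2 h4, if_neg h5.not_gt, if_pos h6] at h'
  omega

theorem no_copy (x : Fin 5 → List α) (hne : ∀ i, x i ≠ [])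
    (hnd : (List.ofFn x).flatten.Nodup)
    (h : ∀ σ τ : Equiv.Perm (Fin 5), col (List.ofFn (fun i => x (σ i))).flatten =
      col (List.ofFn (fun i => x (τ i))).flatten) : False := by
  have hdisj : ∀ i j, i ≠ j → List.Disjoint (x i) (x j) := by
    have := (List.nodup_flatten.mp hnd).2
    rw [List.pairwise_ofFn] at this
    intro i j hij
    rcases lt_or_gt_of_ne hij with h | h
    · exact this h
    · exact (this h).symm
  let f : Fin 5 → α := fun i => (x i).head (hne i)
  let l : Fin 5 → α := fun i => (x i).getLast (hne i)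
  have hf : Function.Injective f := by
    intro i j hij
    by_contra hn
    exact hdisj i j hn (List.head_mem (hne i)) (by
      have : (x i).head (hne i) = (x j).head (hne j) := hij
      rw [this]; exact List.head_mem (hne j))
  have hl : Function.Injective l := by
    intro i j hij
    by_contra hn
    exact hdisj i j hn (List.getLast_mem (hne i)) (by
      have : (x i).getLast (hne i) = (x j).getLast (hne j) := hij
      rw [this]; exact List.getLast_mem (hne j))
  let π := Tuple.sort f
  have hπ : StrictMono (f ∘ π) :=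
    (Tuple.monotone_sort f).strictMono_of_injective (hf.comp π.injective)
  have key : ∀ ρ : Equiv.Perm (Fin 5), ρ 0 = 1 → ρ 2 = 0 →
      l (π (ρ 1)) < l (π (ρ 4)) → l (π (ρ 4)) < l (π (ρ 3)) → False := by
    intro ρ r0 r2 g1 g2
    have hρ : ∀ i, i ≠ 0 → i ≠ 2 → ρ 0 < ρ i := by
      intro i i0 i2
      have a0 : ρ i ≠ ρ 0 := fun h => i0 (ρ.injective h)
      have a2 : ρ i ≠ ρ 2 := fun h => i2 (ρ.injective h)
      rw [r0] at a0 ⊢
      rw [r2] at a2
      omega
    have := h (ρ.trans π) ((Equiv.swap 1 3).trans (ρ.trans π))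
    simp only [List.ofFn_succ, List.ofFn_zero, List.flatten_cons, List.flatten_nil,
      List.append_nil, Equiv.trans_apply] at this
    refine col_ne (x (π (ρ 0))) (x (π (ρ 1))) (x (π (ρ 2))) (x (π (ρ 3))) (x (π (ρ 4)))
      (hne _) (hne _) (hne _) (hne _) (hne _) (hπ (by rw [r0, r2]; decide))
      (hπ (hρ 1 (by decide) (by decide))) (hπ (hρ 3 (by decide) (by decide)))
      (hπ (hρ 4 (by decide) (by decide))) g1 g2 ?_
    exact this
  have n23 : l (π 2) ≠ l (π 3) := fun h => absurd (π.injective (hl h)) (by decide)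
  have n24 : l (π 2) ≠ l (π 4) := fun h => absurd (π.injective (hl h)) (by decide)
  have n34 : l (π 3) ≠ l (π 4) := fun h => absurd (π.injective (hl h)) (by decide)
  have mk : ∀ a b c : Fin 5, Function.Bijective ![1, a, 0, b, c] →
      l (π a) < l (π c) → l (π c) < l (π b) → False :=
    fun a b c hb g1 g2 => key (Equiv.ofBijective _ hb) rfl rfl g1 g2
  rcases lt_or_gt_of_ne n23 with a | a <;> rcases lt_or_gt_of_ne n24 with b | b <;>
    rcases lt_or_gt_of_ne n34 with c | c
  · exact mk 2 4 3 (by decide) a c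
  · exact mk 2 3 4 (by decide) b c
  · exact absurd (a.trans c) b.not_gt
  · exact mk 4 3 2 (by decide) b a
  · exact mk 3 4 2 (by decide) a b
  · exact absurd (b.trans c) a.not_gt
  · exact mk 3 2 4 (by decide) c b
  · exact mk 4 2 3 (by decide) c a

end Pool.Agent.Lib.MP_3f4edd_co
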